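import Pool.Agent.V5helper29.WP.Nec2

/-!
# Window pairs whose spectral magnitudes determine a polynomial

For every `n ≥ 1` all magnitude-determining pairs of windows are determined.  Sequences
`(a(0), …, a(n))` are given as functions on `ℕ` of which only the values at `0, …, n` are used.
-/

set_option autoImplicit false

open Complex Finset

namespace Pool.Agent.Results.MP_474a86_an.WindowPairs

/-- The polynomial `p_a(z) = ∑_{k ≤ n} a(k) z^k`. -/
def poly (n : ℕ) (a : ℕ → ℂ) (z : ℂ) : ℂ := ∑ k ∈ range (n + 1), a k * z ^ k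

/-- The spectral magnitude `s_a(ω) = |p_a(e^{iω})|`. -/
noncomputable def specMag (n : ℕ) (a : ℕ → ℂ) (ω : ℝ) : ℝ :=
  ‖poly n a (Complex.exp (ω * Complex.I))‖

/-- The pair of windows `(w₁, w₂)` is magnitude-determining for degree `n`. -/
def MagnitudeDetermining (n : ℕ) (w₁ w₂ : ℕ → ℂ) : Prop :=
  ∀ a a' : ℕ → ℂ, a n ≠ 0 → a' n ≠ 0 →
    (∀ ω, specMag n (fun k => a k * w₁ k) ω = specMag n (fun k => a' k * w₁ k) ω) →
    (∀ ω, specMag n (fun k => a k * w₂ k) ω = specMag n (fun k => a' k * w₂ k) ω) →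
    ∃ c : ℂ, ‖c‖ = 1 ∧ ∀ z, poly n a' z = c * poly n a z

lemma coeff_of_poly {n : ℕ} {b : ℕ → ℂ} (h : ∀ z, poly n b z = 0) {k : ℕ} (hk : k ≤ n) :
    b k = 0 := by
  have h1 : (∑ l ∈ range (n + 1), Polynomial.C (b l) * Polynomial.X ^ l : Polynomial ℂ) = 0 := by
    refine Polynomial.funext fun z => ?_
    rw [Polynomial.eval_finsetSum, Polynomial.eval_zero]
    simp only [Polynomial.eval_mul, Polynomial.eval_C, Polynomial.eval_pow, Polynomial.eval_X]
    exact h z
  have h2 := congrArg (fun p => Polynomial.coeff p k) h1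
  simp only [Polynomial.finsetSum_coeff, Polynomial.coeff_C_mul_X_pow, Polynomial.coeff_zero] at h2
  rw [sum_eq_single k] at h2
  · simpa using h2
  · intro l _ hl
    rw [if_neg (Ne.symm hl)]
  · intro h'
    exact absurd (mem_range.2 (Nat.lt_succ_of_le hk)) h'

lemma determining_iff (n : ℕ) (w₁ w₂ : ℕ → ℂ) :
    MagnitudeDetermining n w₁ w₂ ↔ Pool.Agent.V5helper29.WP.Determining n w₁ w₂ := by
  constructor
  · intro h a b ha hb h1 h2
    obtain ⟨c, hc, hp⟩ := h a b ha hb h1 h2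
    refine ⟨c, hc, fun k hk => ?_⟩
    have h3 : ∀ z, poly n (fun k => b k - c * a k) z = 0 := by
      intro z
      have h4 := hp z
      unfold poly at h4 ⊢
      rw [mul_sum, ← sub_eq_zero, ← sum_sub_distrib] at h4
      rw [← h4]
      refine sum_congr rfl fun l _ => ?_
      ring
    exact sub_eq_zero.1 (coeff_of_poly h3 hk)
  · intro h a b ha hb h1 h2
    obtain ⟨c, hc, hp⟩ := h a b ha hb h1 h2
    refine ⟨c, hc, fun z => ?_⟩
    unfold poly
    rw [mul_sum]
    refine sum_congr rfl fun l hl => ?_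
    rw [hp l (Nat.lt_succ_iff.1 (mem_range.1 hl))]
    ring

/-- **Characterization of the magnitude-determining pairs of windows.**  Let `n ≥ 1`.  The pair
`(w₁, w₂)` is magnitude-determining for degree `n` if and only if

* for all `0 ≤ m ≤ k < n` the vectors `(w₁(k) conj w₁(k-m), w₂(k) conj w₂(k-m))` and
  `(w₁(n) conj w₁(n-m), w₂(n) conj w₂(n-m))` of `ℂ²` are linearly independent, and
* `w₁(n) w₁(0) ≠ 0` or `w₂(n) w₂(0) ≠ 0`. -/
theorem result (n : ℕ) (hn : 1 ≤ n) (w₁ w₂ : ℕ → ℂ) : MagnitudeDetermining n w₁ w₂ ↔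
    (∀ m k, m ≤ k → k < n →
      w₁ k * starRingEnd ℂ (w₁ (k - m)) * (w₂ n * starRingEnd ℂ (w₂ (n - m))) ≠
      w₂ k * starRingEnd ℂ (w₂ (k - m)) * (w₁ n * starRingEnd ℂ (w₁ (n - m)))) ∧
    (w₁ n * w₁ 0 ≠ 0 ∨ w₂ n * w₂ 0 ≠ 0) :=
  (determining_iff n w₁ w₂).trans (Pool.Agent.V5helper29.WP.characterization hn w₁ w₂)

end Pool.Agent.Results.MP_474a86_an.WindowPairs
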